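import Pool.Agent.Helper65.OneTape.SweepDefs

/-! Compilation of sweeping machines into one-tape machines (packet LV4 of `MP_34c247_lc`). -/

namespace Pool.Agent.Helper75.LV4

open Pool.Agent.Helper65.OneTape

section

variable {S Γ : Type} (f : S → Γ → S × Γ) (e : S → Bool × Bool → S ⊕ Option Bool)

/-- the transition function of the compiled machine -/
def delta (coin : Bool) : S ⊕ (S × Bool) ⊕ Option Bool → Option Γ →
    (S ⊕ (S × Bool) ⊕ Option Bool) × Option Γ × SignType
  | Sum.inl s, some a => (Sum.inl (f s a).1, some (f s a).2, 1)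
  | Sum.inl s, none => (Sum.inr (Sum.inl (s, coin)), none, -1)
  | Sum.inr (Sum.inl (s, c)), some a => (Sum.inr (Sum.inl (s, c)), some a, -1)
  | Sum.inr (Sum.inl (s, c)), none =>
      match e s (c, coin) with
      | Sum.inl s' => (Sum.inl s', none, 1)
      | Sum.inr o => (Sum.inr (Sum.inr o), none, 0)
  | Sum.inr (Sum.inr o), a => (Sum.inr (Sum.inr o), a, 0)

/-- the outputs of the compiled machine -/
def outp : S ⊕ (S × Bool) ⊕ Option Bool → Option (Option Bool)
  | Sum.inl _ => none
  | Sum.inr (Sum.inl _) => none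
  | Sum.inr (Sum.inr o) => some o

/-- the tape with contents `u` -/
def tapeOf (u : List Γ) (z : ℤ) : Option Γ := if 0 ≤ z then u[z.toNat]? else none

theorem run_add {Q Γ' α : Type} (out : Q → Option α) (δ : ℕ → Q → Γ' → Q × Γ' × SignType)
    (c : Q × ℤ × (ℤ → Γ')) (a b : ℕ) :
    run out δ c (a + b) = run out (fun t => δ (a + t)) (run out δ c a) b := by
  induction b with
  | zero => rfl
  | succ b ih => rw [← Nat.add_assoc, run, ih, run]

theorem tapeOf_neg (u : List Γ) {z : ℤ} (hz : z < 0) : tapeOf u z = none := by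
  unfold tapeOf
  rw [if_neg (by omega)]

theorem tapeOf_nat (u : List Γ) (n : ℕ) : tapeOf u (n : ℤ) = u[n]? := by
  unfold tapeOf
  rw [if_pos (by omega)]
  simp

theorem update_tapeOf (pre v : List Γ) (a b : Γ) :
    Function.update (tapeOf (pre ++ a :: v)) ((pre.length : ℕ) : ℤ) (some b) =
      tapeOf ((pre ++ [b]) ++ v) := by
  funext z
  by_cases hz : z = ((pre.length : ℕ) : ℤ)
  · subst hz
    rw [Function.update_self, tapeOf_nat]
    simp
  · rw [Function.update_of_ne hz]
    rcases lt_or_ge z 0 with h0 | h0
    · rw [tapeOf_neg _ h0, tapeOf_neg _ h0]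
    · obtain ⟨n, rfl⟩ := Int.eq_ofNat_of_zero_le h0
      rw [tapeOf_nat, tapeOf_nat]
      have hn : n ≠ pre.length := fun h => hz (by rw [h])
      rcases lt_or_gt_of_ne hn with h | h
      · rw [List.getElem?_append_left h, List.append_assoc, List.getElem?_append_left h]
      · rw [List.getElem?_append_right h.le, List.append_assoc,
          List.getElem?_append_right h.le]
        obtain ⟨m, hm⟩ : ∃ m, n - pre.length = m + 1 := ⟨n - pre.length - 1, by omega⟩
        rw [hm]
        simp

theorem scan_length (s : S) (u : List Γ) : (scan f s u).2.length = u.length := by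
  induction u generalizing s with
  | nil => rfl
  | cons a u ih => simp [scan, ih]

/-- the pass to the right -/
theorem right_pass (v : List Γ) : ∀ (pre : List Γ) (s : S) (ω : ℕ → Bool),
    run outp (fun t => delta f e (ω t))
      (Sum.inl s, ((pre.length : ℕ) : ℤ), tapeOf (pre ++ v)) v.length =
      (Sum.inl (scan f s v).1, (((pre.length + v.length : ℕ)) : ℤ),
        tapeOf (pre ++ (scan f s v).2)) := by
  induction v with
  | nil =>
    intro pre s ω
    simp [run, scan]
  | cons a v ih =>
    intro pre s ω
    have h1 : (a :: v).length = 1 + v.length := by simp [Nat.add_comm]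
    rw [h1, run_add]
    have h2 : run outp (fun t => delta f e (ω t))
        (Sum.inl s, ((pre.length : ℕ) : ℤ), tapeOf (pre ++ a :: v)) 1 =
        (Sum.inl (f s a).1, (((pre ++ [(f s a).2]).length : ℕ) : ℤ),
          tapeOf ((pre ++ [(f s a).2]) ++ v)) := by
      have h3 : tapeOf (pre ++ a :: v) ((pre.length : ℕ) : ℤ) = some a := by
        rw [tapeOf_nat]; simp
      have h4 : delta f e (ω 0) (Sum.inl s) (some a) =
        (Sum.inl (f s a).1, some (f s a).2, 1) := rfl
      simp only [run, step, outp, h3, h4, Option.isSome_none, Bool.false_eq_true, if_false]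
      refine Prod.ext rfl (Prod.ext ?_ ?_)
      · simp
      · exact update_tapeOf pre v a _
    rw [h2, ih]
    refine Prod.ext ?_ (Prod.ext ?_ ?_)
    · simp [scan]
    · simp; ring
    · simp [scan]

/-- the pass to the left -/
theorem left_pass (u : List Γ) (s : S) (c : Bool) : ∀ (k : ℕ) (_ : k ≤ u.length) (ω : ℕ → Bool),
    run outp (fun t => delta f e (ω t))
      (Sum.inr (Sum.inl (s, c)), ((k : ℕ) : ℤ) - 1, tapeOf u) k =
      (Sum.inr (Sum.inl (s, c)), -1, tapeOf u) := by
  intro k
  induction k with
  | zero => intro _ ω; simp [run]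
  | succ k ih =>
    intro hk ω
    rw [Nat.add_comm k 1, run_add]
    have h2 : run outp (fun t => delta f e (ω t))
        (Sum.inr (Sum.inl (s, c)), ((1 + k : ℕ) : ℤ) - 1, tapeOf u) 1 =
        (Sum.inr (Sum.inl (s, c)), ((k : ℕ) : ℤ) - 1, tapeOf u) := by
      have h5 : ((1 + k : ℕ) : ℤ) - 1 = ((k : ℕ) : ℤ) := by push_cast; ring
      have h3 : tapeOf u ((k : ℕ) : ℤ) = some (u[k]'(by omega)) := by
        rw [tapeOf_nat]; simp [List.getElem?_eq_getElem (show k < u.length by omega)]
      have h4 : delta f e (ω 0) (Sum.inr (Sum.inl (s, c))) (some (u[k]'(by omega))) =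
        (Sum.inr (Sum.inl (s, c)), some (u[k]'(by omega)), -1) := rfl
      rw [h5]
      simp only [run, step, outp, h3, h4, Option.isSome_none, Bool.false_eq_true, if_false]
      refine Prod.ext rfl (Prod.ext ?_ ?_)
      · simp; ring
      · show Function.update (tapeOf u) ((k : ℕ) : ℤ) (some (u[k]'(by omega))) = tapeOf u
        rw [← h3, Function.update_eq_self]
    rw [h2]
    exact ih (by omega) _

/-- one complete sweep -/
theorem one_sweep (u : List Γ) (s : S) (ω : ℕ → Bool) :
    run outp (fun t => delta f e (ω t)) (Sum.inl s, 0, tapeOf u) (2 * u.length + 2) =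
      match e (scan f s u).1 (ω u.length, ω (2 * u.length + 1)) with
      | Sum.inl s' => (Sum.inl s', 0, tapeOf (scan f s u).2)
      | Sum.inr o => (Sum.inr (Sum.inr o), -1, tapeOf (scan f s u).2) := by
  have hsplit : 2 * u.length + 2 = u.length + (1 + (u.length + 1)) := by ring
  rw [hsplit, run_add]
  have h1 := right_pass f e u [] s ω
  simp only [List.length_nil, List.nil_append, Nat.cast_zero, Nat.zero_add] at h1
  rw [h1, run_add]
  have hlen := scan_length f s u
  have h2 : run outp (fun t => delta f e (ω (u.length + t)))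
      (Sum.inl (scan f s u).1, ((u.length : ℕ) : ℤ), tapeOf (scan f s u).2) 1 =
      (Sum.inr (Sum.inl ((scan f s u).1, ω u.length)), ((u.length : ℕ) : ℤ) - 1,
        tapeOf (scan f s u).2) := by
    have h3 : tapeOf (scan f s u).2 ((u.length : ℕ) : ℤ) = none := by
      rw [tapeOf_nat]
      exact List.getElem?_eq_none (by omega)
    have h4 : delta f e (ω (u.length + 0)) (Sum.inl (scan f s u).1) none =
      (Sum.inr (Sum.inl ((scan f s u).1, ω (u.length + 0))), none, -1) := rfl
    simp only [run, step, outp, h3, h4, Option.isSome_none, Bool.false_eq_true, if_false]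
    refine Prod.ext rfl (Prod.ext ?_ ?_)
    · simp; ring
    · show Function.update (tapeOf (scan f s u).2) ((u.length : ℕ) : ℤ) none = _
      rw [← h3, Function.update_eq_self]
  rw [h2, run_add]
  have h5 := left_pass f e (scan f s u).2 (scan f s u).1 (ω u.length) u.length (by omega)
    (fun t => ω (u.length + (1 + t)))
  rw [h5]
  have h6 : tapeOf (scan f s u).2 (-1) = none := tapeOf_neg _ (by norm_num)
  have h7 : ω (u.length + (1 + (u.length + 0))) = ω (2 * u.length + 1) := by
    congr 1; ring
  have h8 : delta f e (ω (u.length + (1 + (u.length + 0))))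
      (Sum.inr (Sum.inl ((scan f s u).1, ω u.length))) none =
      match e (scan f s u).1 (ω u.length, ω (2 * u.length + 1)) with
      | Sum.inl s' => (Sum.inl s', none, 1)
      | Sum.inr o => (Sum.inr (Sum.inr o), none, 0) := by
    rw [h7]; rfl
  simp only [run, step, outp, h6, h8, Option.isSome_none, Bool.false_eq_true, if_false]
  cases e (scan f s u).1 (ω u.length, ω (2 * u.length + 1)) with
  | inl s' =>
    refine Prod.ext rfl (Prod.ext ?_ ?_)
    · simp
    · show Function.update (tapeOf (scan f s u).2) (-1) none = _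
      rw [← h6, Function.update_eq_self]
  | inr o =>
    refine Prod.ext rfl (Prod.ext ?_ ?_)
    · simp
    · show Function.update (tapeOf (scan f s u).2) (-1) none = _
      rw [← h6, Function.update_eq_self]

theorem run_halted (o : Option Bool) (z : ℤ) (tp : ℤ → Option Γ) (ω : ℕ → Bool) (k : ℕ) :
    run outp (fun t => delta f e (ω t)) (Sum.inr (Sum.inr o), z, tp) k =
      (Sum.inr (Sum.inr o), z, tp) := by
  induction k with
  | zero => rfl
  | succ k ih => rw [run, ih]; simp [step, outp]

/-- the state after `k` sweeps -/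
theorem after_sweeps (s₀ : S) (u₀ : List Γ) (ω : ℕ → Bool) (k : ℕ) :
    match sweeps f e (fun k => (ω ((2 * u₀.length + 2) * k + u₀.length),
        ω ((2 * u₀.length + 2) * k + (2 * u₀.length + 1)))) s₀ u₀ k with
    | Sum.inl (s, u) => u.length = u₀.length ∧
        run outp (fun t => delta f e (ω t)) (Sum.inl s₀, 0, tapeOf u₀) ((2 * u₀.length + 2) * k) =
          (Sum.inl s, 0, tapeOf u)
    | Sum.inr o => ∃ z tp,
        run outp (fun t => delta f e (ω t)) (Sum.inl s₀, 0, tapeOf u₀) ((2 * u₀.length + 2) * k) =
          (Sum.inr (Sum.inr o), z, tp) := by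
  induction k with
  | zero => simp [sweeps, run]
  | succ k ih =>
    rw [sweeps]
    have hm : (2 * u₀.length + 2) * (k + 1) = (2 * u₀.length + 2) * k + (2 * u₀.length + 2) := by
      ring
    rw [hm, run_add]
    revert ih
    cases sweeps f e (fun k => (ω ((2 * u₀.length + 2) * k + u₀.length),
        ω ((2 * u₀.length + 2) * k + (2 * u₀.length + 1)))) s₀ u₀ k with
    | inl p =>
      obtain ⟨s, u⟩ := p
      intro ih
      obtain ⟨hu, hrun⟩ := ih
      rw [hrun]
      have h1 := one_sweep f e u s (fun t => ω ((2 * u₀.length + 2) * k + t))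
      rw [hu] at h1
      rw [h1]
      dsimp only
      cases e (scan f s u).1 (ω ((2 * u₀.length + 2) * k + u₀.length),
        ω ((2 * u₀.length + 2) * k + (2 * u₀.length + 1))) with
      | inl s' => exact ⟨by rw [scan_length, hu], rfl⟩
      | inr o => exact ⟨_, _, rfl⟩
    | inr o =>
      intro ih
      obtain ⟨z, tp, hrun⟩ := ih
      refine ⟨z, tp, ?_⟩
      rw [hrun]
      exact run_halted f e o z tp (fun t => ω ((2 * u₀.length + 2) * k + t)) _

end

/-- Packet LV4: sweeping machines can be run on one-tape machines. -/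
theorem compile {S Γ : Type} [Finite S] [Finite Γ] (f : S → Γ → S × Γ)
    (e : S → Bool × Bool → S ⊕ Option Bool) (s₀ : S) (g : Bool → Γ) (hg : Function.Injective g) :
    ∃ (Q Γ' : Type) (_ : Finite Q) (_ : Finite Γ') (inp : Option Bool → Γ') (q₀ : Q)
      (δ : Bool → Q → Γ' → Q × Γ' × SignType) (out : Q → Option (Option Bool)),
      Function.Injective inp ∧
      ∀ (w : List Bool) (ω : ℕ → Bool) (P : ℕ) (o : Option Bool),
        sweeps f e (fun k => (ω ((2 * w.length + 2) * k + w.length),
          ω ((2 * w.length + 2) * k + (2 * w.length + 1)))) s₀ (w.map g) P = Sum.inr o →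
        out (run out (fun t => δ (ω t)) (q₀, 0, fun z => inp (cell w z))
          ((2 * w.length + 2) * P)).1 = some o := by
  refine ⟨S ⊕ (S × Bool) ⊕ Option Bool, Option Γ, inferInstance, inferInstance,
    Option.map g, Sum.inl s₀, delta f e, outp, Option.map_injective hg, ?_⟩
  intro w ω P o h
  have htape : (fun z => Option.map g (cell w z)) = tapeOf (w.map g) := by
    funext z
    unfold cell tapeOf
    split_ifs
    · simp
    · rfl
  rw [htape]
  have h1 := after_sweeps f e s₀ (w.map g) ω P
  rw [List.length_map] at h1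
  rw [h] at h1
  obtain ⟨z, tp, h2⟩ := h1
  rw [h2]
  rfl

end Pool.Agent.Helper75.LV4
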